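import Pool.Agent.REV.StmtsV3

set_option autoImplicit false

namespace Pool.Agent.REV.H70

open Set MeasureTheory Filter
open scoped Topology
open Pool.Agent.REV

/-- Shift of a half line. -/
theorem hp3_shift (F : ℝ → ℝ) (h : ℝ) :
    (∫ τ in Ioi (0 : ℝ), F (τ + h)) = ∫ τ in Ioi h, F τ := by
  have h1 := (measurePreserving_add_right (volume : Measure ℝ) h).setIntegral_preimage_emb
    (measurableEmbedding_addRight h) F (Ioi h)
  rw [Set.preimage_add_const_Ioi, sub_self] at h1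
  exact h1

theorem hp3_shift_int (F : ℝ → ℝ) (h : ℝ) (hF : IntegrableOn F (Ioi h)) :
    IntegrableOn (fun τ => F (τ + h)) (Ioi (0 : ℝ)) := by
  have h1 := ((measurePreserving_add_right (volume : Measure ℝ) h).integrableOn_comp_preimage
    (measurableEmbedding_addRight h) (f := F) (s := Ioi h)).2 hF
  rw [Set.preimage_add_const_Ioi, sub_self] at h1
  exact h1

/-- The integral of the inverse square root. -/
theorem hp3_sqrt (h : ℝ) (hh : 0 < h) :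
    (∫ τ in Ioc (0 : ℝ) h, τ ^ (-(1 / 2) : ℝ)) = 2 * h ^ (1 / 2 : ℝ) := by
  rw [← intervalIntegral.integral_of_le hh.le, integral_rpow (Or.inl (by norm_num))]
  have e : (-(1 / 2) + 1 : ℝ) = 1 / 2 := by norm_num
  rw [e, Real.zero_rpow (by norm_num)]
  ring

/-- Row HP3. -/
theorem hp3 : Hp3Stmt := by
  intro κ K1 A Ψ hκ hK1 hA Q h hQ hh
  have hF := hA.integ Q hQ
  have hG := hA.integ (Q + h) (by linarith)
  rw [hA.eq Q hQ, hA.eq (Q + h) (by linarith)]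
  constructor
  · rw [← mul_sub]
    refine mul_nonneg hκ (sub_nonneg.2 ?_)
    refine setIntegral_mono_on hG hF measurableSet_Ioi ?_
    intro τ hτ
    have hτ' : (0 : ℝ) < τ := hτ
    refine mul_le_mul_of_nonneg_left ?_ (Real.rpow_nonneg hτ'.le _)
    exact hA.anti (show (0 : ℝ) < Q + τ by linarith) (show (0 : ℝ) < Q + h + τ by linarith)
      (by linarith)
  · have hU : Ioc (0 : ℝ) h ∪ Ioi h = Ioi 0 := Ioc_union_Ioi_eq_Ioi hh.le
    have hF1 : IntegrableOn (fun τ : ℝ => τ ^ (-(1 / 2) : ℝ) * Ψ (Q + τ)) (Ioc 0 h) :=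
      hF.mono_set (fun x hx => hx.1)
    have hF2 : IntegrableOn (fun τ : ℝ => τ ^ (-(1 / 2) : ℝ) * Ψ (Q + τ)) (Ioi h) :=
      hF.mono_set (fun x hx => lt_trans hh hx)
    have hsplit : (∫ τ in Ioi (0 : ℝ), τ ^ (-(1 / 2) : ℝ) * Ψ (Q + τ)) =
        (∫ τ in Ioc (0 : ℝ) h, τ ^ (-(1 / 2) : ℝ) * Ψ (Q + τ)) +
        ∫ τ in Ioi h, τ ^ (-(1 / 2) : ℝ) * Ψ (Q + τ) := by
      rw [← hU]
      exact setIntegral_union (Ioc_disjoint_Ioi le_rfl) measurableSet_Ioi hF1 hF2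
    have h2 : (∫ τ in Ioi h, τ ^ (-(1 / 2) : ℝ) * Ψ (Q + τ)) ≤
        ∫ τ in Ioi (0 : ℝ), τ ^ (-(1 / 2) : ℝ) * Ψ (Q + h + τ) := by
      rw [← hp3_shift (fun τ : ℝ => τ ^ (-(1 / 2) : ℝ) * Ψ (Q + τ)) h]
      refine setIntegral_mono_on (hp3_shift_int _ h hF2) hG measurableSet_Ioi ?_
      intro τ hτ
      have hτ' : (0 : ℝ) < τ := hτ
      have e : Q + (τ + h) = Q + h + τ := by ring
      show (τ + h) ^ (-(1 / 2) : ℝ) * Ψ (Q + (τ + h)) ≤ τ ^ (-(1 / 2) : ℝ) * Ψ (Q + h + τ)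
      rw [e]
      refine mul_le_mul_of_nonneg_right ?_ (hA.nonneg _ (by linarith))
      exact Real.rpow_le_rpow_of_nonpos hτ' (by linarith) (by norm_num)
    have hr : IntegrableOn (fun τ : ℝ => τ ^ (-(1 / 2) : ℝ)) (Ioc 0 h) :=
      (intervalIntegral.intervalIntegrable_rpow' (by norm_num)).1
    have h1 : (∫ τ in Ioc (0 : ℝ) h, τ ^ (-(1 / 2) : ℝ) * Ψ (Q + τ)) ≤
        2 * h ^ (1 / 2 : ℝ) * (K1 * min 1 Q⁻¹) := by
      rw [← hp3_sqrt h hh, ← integral_mul_const]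
      refine setIntegral_mono_on hF1 (hr.mul_const _) measurableSet_Ioc ?_
      intro τ hτ
      refine mul_le_mul_of_nonneg_left ?_ (Real.rpow_nonneg hτ.1.le _)
      exact (hA.anti (show (0 : ℝ) < Q from hQ) (show (0 : ℝ) < Q + τ by linarith [hτ.1])
        (by linarith [hτ.1])).trans (hA.bdd Q hQ)
    rw [hsplit, ← mul_sub]
    calc κ * ((∫ τ in Ioc (0 : ℝ) h, τ ^ (-(1 / 2) : ℝ) * Ψ (Q + τ)) +
          (∫ τ in Ioi h, τ ^ (-(1 / 2) : ℝ) * Ψ (Q + τ)) -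
          ∫ τ in Ioi (0 : ℝ), τ ^ (-(1 / 2) : ℝ) * Ψ (Q + h + τ))
        ≤ κ * (2 * h ^ (1 / 2 : ℝ) * (K1 * min 1 Q⁻¹)) :=
          mul_le_mul_of_nonneg_left (by linarith) hκ
      _ = 2 * κ * K1 * h ^ (1 / 2 : ℝ) * min 1 Q⁻¹ := by ring

end Pool.Agent.REV.H70

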