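import Pool.Agent.REV.StmtsU3

/-! Squad REV, row KT3: sign lemma for `kk`, strict (copy of row KST). -/

set_option autoImplicit false

namespace Pool.Agent.REV.H70

open Set Filter
open scoped Topology

/-- Row KT3. -/
theorem kt3 (hkki : Ki3Stmt) : Kt3Stmt := by
  intro n γ hn hanti hcont hne
  obtain ⟨hkc, hkI, hkf, hki⟩ := hkki n hn
  have hn4 : (3 : ℝ) ≤ n := by exact_mod_cast hn
  have hn1 : (0 : ℝ) < (n : ℝ) - 1 := by linarith
  obtain ⟨r0, hr0⟩ : ∃ r0 : ℝ, r0 = 1 / Real.sqrt ((n : ℝ) - 1) := ⟨_, rfl⟩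
  have hs : 0 < Real.sqrt ((n : ℝ) - 1) := Real.sqrt_pos.2 hn1
  have hr0p : 0 < r0 := by rw [hr0]; positivity
  have hr0s : ((n : ℝ) - 1) * r0 ^ 2 = 1 := by
    rw [hr0, div_pow, one_pow, Real.sq_sqrt hn1.le]
    field_simp
  have hr01 : r0 < 1 := by
    by_contra h
    rw [not_lt] at h
    have : 1 ≤ r0 ^ 2 := by nlinarith
    nlinarith
  have hr0m : r0 ∈ Icc (0 : ℝ) 1 := ⟨hr0p.le, hr01.le⟩
  -- the integral of the kernel
  have hk0 : ∫ r in (0 : ℝ)..1, kk n r = 0 := by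
    rw [hki 1 ⟨zero_le_one, le_rfl⟩]
    have h1 : (1 : ℝ) - 1 ^ 2 = 0 := by norm_num
    rw [h1, Real.zero_rpow (by linarith), mul_zero]
  have hFc : ContinuousOn (fun r => kk n r * (γ r - γ r0)) (Ico 0 1) :=
    hkc.mul ((hcont.mono Ico_subset_Icc_self).sub continuousOn_const)
  have hFI : IntervalIntegrable (fun r => kk n r * (γ r - γ r0)) MeasureTheory.volume 0 1 := by
    refine hkI.mul_continuousOn ?_
    rw [uIcc_of_le zero_le_one]
    exact hcont.sub continuousOn_const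
  have hint : ∫ r in (0 : ℝ)..1, kk n r * γ r = ∫ r in (0 : ℝ)..1, kk n r * (γ r - γ r0) := by
    have h1 : ∫ r in (0 : ℝ)..1, (kk n r * (γ r - γ r0) + kk n r * γ r0) =
        (∫ r in (0 : ℝ)..1, kk n r * (γ r - γ r0)) + ∫ r in (0 : ℝ)..1, kk n r * γ r0 :=
      intervalIntegral.integral_add hFI (hkI.mul_const _)
    rw [intervalIntegral.integral_mul_const, hk0, zero_mul, add_zero] at h1
    rw [← h1]
    refine intervalIntegral.integral_congr fun r _ => ?_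
    show kk n r * γ r = kk n r * (γ r - γ r0) + kk n r * γ r0
    ring
  rw [hint]
  have hpow : ∀ r ∈ Icc (0 : ℝ) 1, 0 ≤ (1 - r ^ 2) ^ (((n : ℝ) - 4) / 2) := by
    intro r hr
    apply Real.rpow_nonneg
    nlinarith [hr.1, hr.2]
  have hF1 : 0 ≤ kk n 1 * (γ 1 - γ r0) := by
    have h1 : kk n 1 ≤ 0 := by
      unfold kk
      have h2 : (1 : ℝ) - 1 ^ 2 = 0 := by norm_num
      rw [h2, Real.zero_rpow (by linarith : ((n : ℝ) - 2) / 2 ≠ 0)]
      have h3 : (0 : ℝ) ≤ (0 : ℝ) ^ (((n : ℝ) - 4) / 2) := Real.rpow_nonneg le_rfl _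
      have h4 : (0 : ℝ) ≤ (n : ℝ) - 2 := by linarith
      have h5 := mul_nonneg h4 h3
      nlinarith
    have h2 : γ 1 - γ r0 ≤ 0 := by
      have := hanti hr0m ⟨zero_le_one, le_rfl⟩ hr01.le
      linarith
    exact mul_nonneg_of_nonpos_of_nonpos h1 h2
  have hF0' : ∀ r ∈ Ico (0 : ℝ) 1, 0 ≤ kk n r * (γ r - γ r0) := by
    intro r hr'
    have hr : r ∈ Icc (0 : ℝ) 1 := Ico_subset_Icc_self hr'
    rw [hkf r hr']
    rcases le_total r r0 with h | h
    · have h1 : r ^ 2 ≤ r0 ^ 2 := pow_le_pow_left₀ hr.1 h 2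
      have h2 : 0 ≤ 1 - ((n : ℝ) - 1) * r ^ 2 := by nlinarith
      have h3 : 0 ≤ γ r - γ r0 := by
        have := hanti hr hr0m h
        linarith
      exact mul_nonneg (mul_nonneg (hpow r hr) h2) h3
    · have h1 : r0 ^ 2 ≤ r ^ 2 := pow_le_pow_left₀ hr0p.le h 2
      have h2 : 1 - ((n : ℝ) - 1) * r ^ 2 ≤ 0 := by nlinarith
      have h3 : γ r - γ r0 ≤ 0 := by
        have := hanti hr0m hr h
        linarith
      exact mul_nonneg_of_nonpos_of_nonpos (mul_nonpos_of_nonneg_of_nonpos (hpow r hr) h2) h3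
  have hF0 : ∀ r ∈ Icc (0 : ℝ) 1, 0 ≤ kk n r * (γ r - γ r0) := by
    intro r hr
    rcases hr.2.lt_or_eq with h | h
    · exact hF0' r ⟨hr.1, h⟩
    · rw [h]
      exact hF1
  by_contra hneg
  have hno : ∀ r ∈ Ico (0 : ℝ) 1, kk n r * (γ r - γ r0) ≤ 0 := by
    intro r hr
    by_contra hpos
    rw [not_le] at hpos
    apply hneg
    have hb0 : 0 ≤ (r + 1) / 2 := by linarith [hr.1]
    have hb1 : (r + 1) / 2 < 1 := by linarith [hr.2]
    have hI1 : IntervalIntegrable (fun r => kk n r * (γ r - γ r0)) MeasureTheory.volume 0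
        ((r + 1) / 2) := hFI.mono_set (by
      rw [uIcc_of_le zero_le_one, uIcc_of_le hb0]
      exact Icc_subset_Icc le_rfl hb1.le)
    have hI2 : IntervalIntegrable (fun r => kk n r * (γ r - γ r0)) MeasureTheory.volume
        ((r + 1) / 2) 1 := hFI.mono_set (by
      rw [uIcc_of_le zero_le_one, uIcc_of_le hb1.le]
      exact Icc_subset_Icc hb0 le_rfl)
    rw [← intervalIntegral.integral_add_adjacent_intervals hI1 hI2]
    have h1 : 0 < ∫ r in (0 : ℝ)..((r + 1) / 2), kk n r * (γ r - γ r0) := by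
      refine intervalIntegral.integral_pos (by linarith [hr.1])
        (hFc.mono (fun x hx => ⟨hx.1, lt_of_le_of_lt hx.2 hb1⟩))
        (fun x hx => hF0 x ⟨hx.1.le, hx.2.trans hb1.le⟩) ⟨r, ⟨hr.1, by linarith [hr.2]⟩, hpos⟩
    have h2 : 0 ≤ ∫ r in ((r + 1) / 2)..(1 : ℝ), kk n r * (γ r - γ r0) :=
      intervalIntegral.integral_nonneg hb1.le (fun x hx => hF0 x ⟨hb0.trans hx.1, hx.2⟩)
    linarith
  -- then the function is constant
  have hconst : ∀ r ∈ Icc (0 : ℝ) 1, r < 1 → γ r = γ r0 := by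
    intro r hr hr1
    by_cases hrr : r = r0
    · rw [hrr]
    · have h1 := le_antisymm (hno r ⟨hr.1, hr1⟩) (hF0 r hr)
      have hkne : kk n r ≠ 0 := by
        rw [hkf r ⟨hr.1, hr1⟩]
        have h2 : 0 < (1 - r ^ 2) ^ (((n : ℝ) - 4) / 2) := by
          apply Real.rpow_pos_of_pos
          nlinarith [hr.1]
        refine mul_ne_zero h2.ne' ?_
        intro h3
        apply hrr
        have h4 : r ^ 2 = r0 ^ 2 := by
          have h5 : ((n : ℝ) - 1) * r ^ 2 = ((n : ℝ) - 1) * r0 ^ 2 := by linarith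
          exact mul_left_cancel₀ hn1.ne' h5
        exact (pow_left_inj₀ hr.1 hr0p.le two_ne_zero).1 h4
      rcases mul_eq_zero.1 h1 with h2 | h2
      · exact absurd h2 hkne
      · linarith
  have hone : γ 1 = γ r0 := by
    have h1 : Tendsto γ (𝓝[Ioo r0 1] 1) (𝓝 (γ 1)) :=
      (hcont 1 ⟨zero_le_one, le_rfl⟩).mono_left
        (nhdsWithin_mono _ (fun x hx => ⟨hr0p.le.trans hx.1.le, hx.2.le⟩))
    have h2 : Tendsto γ (𝓝[Ioo r0 1] 1) (𝓝 (γ r0)) := by
      refine tendsto_const_nhds.congr' ?_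
      filter_upwards [self_mem_nhdsWithin] with x hx
      exact (hconst x ⟨hr0p.le.trans hx.1.le, hx.2.le⟩ hx.2).symm
    have : (𝓝[Ioo r0 1] (1 : ℝ)).NeBot := right_nhdsWithin_Ioo_neBot hr01
    exact tendsto_nhds_unique h1 h2
  have hall : ∀ r ∈ Icc (0 : ℝ) 1, γ r = γ r0 := by
    intro r hr
    rcases hr.2.lt_or_eq with h | h
    · exact hconst r hr h
    · rw [h, hone]
  obtain ⟨x, hx, y, hy, hxy⟩ := hne
  exact hxy ((hall x hx).trans (hall y hy).symm)

end Pool.Agent.REV.H70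

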