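import Pool.Agent.REV.StmtsV

set_option autoImplicit false

namespace Pool.Agent.REV.H70

open Set MeasureTheory Filter
open scoped Topology
open Pool.Agent.REV

theorem vlm_cb_nonneg {b : ℝ} (hb : 0 ≤ b) : 0 ≤ cb b := by
  unfold cb
  exact div_nonneg hb (Real.sqrt_nonneg _)

theorem vlm_cb_le {b : ℝ} (hb : 0 ≤ b) : cb b ≤ b := by
  unfold cb
  have h1 : (1 : ℝ) ≤ Real.sqrt (1 + b ^ 2) := Real.one_le_sqrt.2 (by nlinarith [sq_nonneg b])
  exact div_le_self hb h1

theorem vlm_cb_zero : cb 0 = 0 := by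
  unfold cb
  simp

theorem vlm_cb_tendsto : Tendsto cb atTop (𝓝 1) := by
  have h1 : Tendsto (fun b : ℝ => (1 + (b ^ 2)⁻¹ : ℝ)) atTop (𝓝 (1 + 0)) := by
    refine tendsto_const_nhds.add ?_
    exact (tendsto_pow_atTop (two_ne_zero)).inv_tendsto_atTop
  have h2 : Tendsto (fun b : ℝ => (Real.sqrt (1 + (b ^ 2)⁻¹))⁻¹) atTop (𝓝 1) := by
    have := (h1.sqrt).inv₀ (by simp)
    simpa using this
  refine h2.congr' ?_
  filter_upwards [eventually_gt_atTop (0 : ℝ)] with b hb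
  unfold cb
  have e : (1 : ℝ) + b ^ 2 = b ^ 2 * (1 + (b ^ 2)⁻¹) := by
    field_simp
    ring
  rw [e, Real.sqrt_mul (by positivity), Real.sqrt_sq hb.le]
  field_simp

theorem vlm_RA_nonneg {n : ℕ} {f : ℝ → ℝ} (hf : Prf f) (c : ℝ) : 0 ≤ RA n f c := by
  unfold RA
  refine intervalIntegral.integral_nonneg zero_le_one ?_
  intro r hr
  have h1 : (0 : ℝ) ≤ 1 - r ^ 2 := by
    have := hr.1
    have := hr.2
    nlinarith
  exact mul_nonneg (Real.rpow_nonneg h1 _) (hf.nonneg _)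

theorem vlm_RA_le {n : ℕ} (hn : 4 ≤ n) {f : ℝ → ℝ} (hf : Prf f) {M : ℝ} (hM : ∀ t, f t ≤ M)
    (c : ℝ) : RA n f c ≤ M := by
  have hn' : (4 : ℝ) ≤ n := by exact_mod_cast hn
  have hM0 : 0 ≤ M := (hf.nonneg 0).trans (hM 0)
  have h := intervalIntegral.norm_integral_le_of_norm_le_const (a := (0 : ℝ)) (b := 1) (C := M)
    (f := fun r => (1 - r ^ 2) ^ (((n : ℝ) - 2) / 2) * f (r * c)) (by
      intro r hr
      rw [uIoc_of_le zero_le_one] at hr
      have h0 := hr.1
      have h2 := hr.2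
      have h1 : (0 : ℝ) ≤ 1 - r ^ 2 := by nlinarith
      have h3 : (1 - r ^ 2 : ℝ) ^ (((n : ℝ) - 2) / 2) ≤ 1 :=
        Real.rpow_le_one h1 (by nlinarith) (by linarith)
      rw [Real.norm_eq_abs, abs_of_nonneg (mul_nonneg (Real.rpow_nonneg h1 _) (hf.nonneg _))]
      calc (1 - r ^ 2 : ℝ) ^ (((n : ℝ) - 2) / 2) * f (r * c) ≤ 1 * M :=
            mul_le_mul h3 (hM _) (hf.nonneg _) zero_le_one
        _ = M := one_mul M)
  have h' : RA n f c ≤ M * |1 - 0| := (le_abs_self _).trans h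
  simpa using h'

/-- Row VLM. -/
theorem vlm (hvdr : VdrStmt) (hydr : YdrStmt) : VlmStmt := by
  intro n f hn hf
  obtain ⟨hd, -, -⟩ := hvdr n f hn hf
  obtain ⟨M, hM⟩ := hf.bdd
  have hM0 : 0 ≤ M := (hf.nonneg 0).trans (hM 0)
  have hbd : ∃ C, ∀ t, |f t| ≤ C := ⟨M, fun t => by rw [abs_of_nonneg (hf.nonneg t)]; exact hM t⟩
  have hyb0 : yb n f 0 = 0 := by
    unfold yb
    rw [vlm_cb_zero, zero_mul]
  have hnn : ∀ b : ℝ, 0 ≤ b → 0 ≤ yb n f b := fun b hb =>
    mul_nonneg (vlm_cb_nonneg hb) (vlm_RA_nonneg hf _)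
  have hle : ∀ b : ℝ, 0 ≤ b → yb n f b ≤ M * b := by
    intro b hb
    unfold yb
    calc cb b * RA n f (cb b) ≤ b * M :=
          mul_le_mul (vlm_cb_le hb) (vlm_RA_le hn hf hM _) (vlm_RA_nonneg hf _) hb
      _ = M * b := mul_comm _ _
  have hcont : ContinuousOn (yb n f) (Ici 0) := by
    intro b hb
    rcases eq_or_lt_of_le (show (0 : ℝ) ≤ b from hb) with h | h
    · rw [← h]
      unfold ContinuousWithinAt
      rw [hyb0]
      refine tendsto_of_tendsto_of_tendsto_of_le_of_le' (g := fun _ => (0 : ℝ)) (h := fun b => M * b)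
        tendsto_const_nhds ?_ ?_ ?_
      · have : Tendsto (fun b : ℝ => M * b) (𝓝 0) (𝓝 (M * 0)) :=
          (continuous_const.mul continuous_id).tendsto 0
        rw [mul_zero] at this
        exact this.mono_left nhdsWithin_le_nhds
      · filter_upwards [self_mem_nhdsWithin] with x hx using hnn x hx
      · filter_upwards [self_mem_nhdsWithin] with x hx using hle x hx
    · exact (hd b h).1.continuousAt.continuousWithinAt
  have hn2 : (0 : ℝ) ≤ (n : ℝ) - 2 := by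
    have : (4 : ℝ) ≤ n := by exact_mod_cast hn
    linarith
  have hmono : MonotoneOn (yb n f) (Ici 0) := by
    refine monotoneOn_of_deriv_nonneg (convex_Ici 0) hcont ?_ ?_
    · intro b hb
      rw [interior_Ici] at hb
      exact (hd b hb).1.differentiableAt.differentiableWithinAt
    · intro b hb
      rw [interior_Ici] at hb
      rw [(hd b hb).1.deriv]
      exact mul_nonneg (div_nonneg hn2 (pow_nonneg (le_of_lt hb) 3)) (hd b hb).2.2.1
  have htend : Tendsto (yb n f) atTop (𝓝 (RA n f 1)) := by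
    have h1 := (hydr n f 1 hn hf.meas hbd one_pos).continuousAt.tendsto
    have h2 := h1.comp vlm_cb_tendsto
    simp only [one_mul] at h2
    exact h2
  have hub : ∀ b : ℝ, 0 ≤ b → yb n f b ≤ RA n f 1 := by
    intro b hb
    refine ge_of_tendsto htend ?_
    filter_upwards [eventually_ge_atTop b] with b' hb'
    exact hmono hb (hb.trans hb') hb'
  have hn1 : n - 1 ≠ 0 := by omega
  have hphT : Tendsto (ph n f) atTop (𝓝 (RA n f 1 ^ (n - 1))) := htend.pow (n - 1)
  have hphC : ∀ B : ℝ, 0 ≤ B → ContinuousWithinAt (ph n f) (Ici B) B := by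
    intro B hB
    have h := (hcont B hB).mono (Ici_subset_Ici.2 hB)
    exact h.pow (n - 1)
  have hint : IntegrableOn (dph n f) (Ioi 0) :=
    integrableOn_Ioi_deriv_of_nonneg (hphC 0 le_rfl) (fun x hx => (hd x hx).2.1)
      (fun x hx => (hd x hx).2.2.2) hphT
  have hval : ∀ B : ℝ, 0 ≤ B → ∫ β in Ioi B, dph n f β = RA n f 1 ^ (n - 1) - ph n f B := by
    intro B hB
    exact integral_Ioi_of_hasDerivAt_of_nonneg (hphC B hB)
      (fun x hx => (hd x (lt_of_le_of_lt hB hx)).2.1)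
      (fun x hx => (hd x (lt_of_le_of_lt hB hx)).2.2.2) hphT
  refine ⟨hmono, hcont, vlm_RA_nonneg hf 1, fun b hb => ⟨hnn b hb, hub b hb⟩, ⟨M, hM0, hle⟩, htend,
    hint, ?_, hval⟩
  have h := hval 0 le_rfl
  have hph0 : ph n f 0 = 0 := by
    unfold ph
    rw [hyb0, zero_pow hn1]
  rw [hph0, sub_zero] at h
  exact h

end Pool.Agent.REV.H70

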