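import Pool.Agent.REV.StmtsG
import Pool.Agent.BPH.Sph

set_option autoImplicit false

open MeasureTheory Module Set Filter
open scoped RealInnerProductSpace Pointwise Topology ENNReal

namespace Pool.Agent.REV.H70

open Pool.Agent.REV Pool.Agent.BPH Pool.Agent.Helper55_PB Pool.Agent.Helper28_PB

/-- Row BP0. -/
theorem bp0 : Bp0Stmt := by
  intro E _ _ _ _ _ _
  have hp : IsProbabilityMeasure (sph E) := sph_facts.prob
  have hp0 : IsProbabilityMeasure (sphP E 0) := by
    unfold sphP
    infer_instance
  have key : ∀ G : (Fin 0 → E) → ℝ, ∫ v, G v ∂sphP E 0 = G Fin.elim0 := by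
    intro G
    have h : (fun v => G v) = fun _ => G Fin.elim0 := by
      funext v
      exact congrArg G (Subsingleton.elim _ _)
    rw [h, integral_const]
    simp
  refine ⟨1, one_pos, fun Ψ _ => ?_⟩
  rw [one_mul, key]
  have hL : ∀ u : E, mP (ℝ ∙ u)ᗮ 0 (fun w => gw w * Ψ (w, u)) = Ψ (Fin.elim0, u) := by
    intro u
    unfold mP
    rw [key]
    have h1 : ∀ w : Fin 0 → E, gw w = 1 := by
      intro w
      unfold gw
      rw [Matrix.det_isEmpty, Real.sqrt_one]
    beta_reduce
    rw [h1, one_mul]
    exact congrArg (fun w => Ψ (w, u)) (Subsingleton.elim _ _)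
  simp only [hL]
  unfold mS
  have hperp : perp (Fin.elim0 : Fin 0 → E) = ⊤ := by
    unfold perp
    rw [Set.range_eq_empty, Submodule.span_empty, Submodule.bot_orthogonal_eq_top]
  rw [hperp]
  refine integral_congr_ae ?_
  filter_upwards [sph_facts.norm (E := E)] with x hx
  have h2 : nrm ((⊤ : Submodule ℝ E).starProjection x) = x := by
    rw [Submodule.starProjection_top]
    unfold nrm
    simp [hx]
  rw [h2]

end Pool.Agent.REV.H70

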